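import Mathlib
import Pool.Agent.Helper368.G10

open MeasureTheory Set Filter Topology Polynomial

namespace Pool.Agent.Results.MP_25eb51_an.OneNegative

/-- Logarithmic kernel `log (D / |x - y|)`, equal to `⊤` on the diagonal. -/
noncomputable def logKernel (D x y : ℝ) : ENNReal :=
  if x = y then ⊤ else ENNReal.ofReal (Real.log (D / |x - y|))

/-- Logarithmic energy, normalised with `D = diam K + 1`: for a probability measure `μ` on `K` it
equals `log D` plus the double integral of `log (1 / |x - y|)`. -/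
noncomputable def energy (K : Set ℝ) (μ : Measure ℝ) : ENNReal :=
  ∫⁻ x, ∫⁻ y, logKernel (Metric.diam K + 1) x y ∂μ ∂μ

/-- `μ` is a Borel probability measure carried by `K`. -/
def ProbOn (K : Set ℝ) (μ : Measure ℝ) : Prop := IsProbabilityMeasure μ ∧ μ Kᶜ = 0

/-- `K` is not polar: it carries a probability measure of finite logarithmic energy. -/
def NonPolar (K : Set ℝ) : Prop := ∃ μ, ProbOn K μ ∧ energy K μ < ⊤

/-- `μ` is an equilibrium measure of `K`: finite and minimal logarithmic energy. -/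
def IsEquilibrium (K : Set ℝ) (μ : Measure ℝ) : Prop :=
  ProbOn K μ ∧ energy K μ < ⊤ ∧ ∀ μ', ProbOn K μ' → energy K μ ≤ energy K μ'

/-- `K` seen as a subset of the complex plane. -/
def planar (K : Set ℝ) : Set ℂ := (fun x : ℝ => (x : ℂ)) '' K

/-- `K` is regular for the Dirichlet problem: the Green function of the complement of `K` with pole at
infinity (positive and harmonic off `K`, with `g z - log |z|` convergent at infinity) extends by `0` to a
continuous function on the plane. -/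
def IsRegular (K : Set ℝ) : Prop :=
  ∃ (g : ℂ → ℝ) (V : ℝ), Continuous g ∧ (∀ z ∈ planar K, g z = 0) ∧ (∀ z ∉ planar K, 0 < g z) ∧
    InnerProductSpace.HarmonicOnNhd g (planar K)ᶜ ∧
    Tendsto (fun z => g z - Real.log ‖z‖) (Bornology.cobounded ℂ) (𝓝 V)

/-- `K` has an equilibrium measure, and every equilibrium measure gives a rational mass to
`[min K, c]` for every `c` outside `K`. -/
def RationalGaps (K : Set ℝ) : Prop :=
  (∃ μ, IsEquilibrium K μ) ∧ ∀ μ, IsEquilibrium K μ → ∀ c : ℝ, c ∉ K →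
    ∃ q : ℚ, μ (Icc (sInf K) c) = ENNReal.ofReal (q : ℝ)

/-- The compositions `F₁ = f₁`, `F₂ = f₂ ∘ f₁`, and so on (indices shifted by one). -/
noncomputable def comps (f : ℕ → ℂ[X]) : ℕ → ℂ[X]
  | 0 => f 0
  | n + 1 => (f (n + 1)).comp (comps f n)

/-- A polynomial as a self-map of the Riemann sphere `OnePoint ℂ`, fixing infinity. -/
noncomputable def sphereMap (P : ℂ[X]) : OnePoint ℂ → OnePoint ℂ := OnePoint.map (fun z => P.eval z)

/-- The chordal distance on the Riemann sphere. -/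
noncomputable def chord (p q : OnePoint ℂ) : ℝ :=
  match p, q with
  | some z, some w => 2 * ‖z - w‖ / (Real.sqrt (1 + ‖z‖ ^ 2) * Real.sqrt (1 + ‖w‖ ^ 2))
  | some z, none => 2 / Real.sqrt (1 + ‖z‖ ^ 2)
  | none, some w => 2 / Real.sqrt (1 + ‖w‖ ^ 2)
  | none, none => 0

/-- The family `(F_n)` is normal on `U`: every sequence of its members has a subsequence that converges
uniformly on the compact subsets of `U` for the chordal distance. -/
def NormalOn (f : ℕ → ℂ[X]) (U : Set (OnePoint ℂ)) : Prop :=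
  ∀ k : ℕ → ℕ, ∃ φ : ℕ → ℕ, StrictMono φ ∧ ∃ G : OnePoint ℂ → OnePoint ℂ,
    ∀ C ⊆ U, IsCompact C → ∀ ε > 0, ∀ᶠ j in atTop, ∀ p ∈ C,
      chord (sphereMap (comps f (k (φ j))) p) (G p) < ε

/-- The Fatou set of the sequence. -/
def fatou (f : ℕ → ℂ[X]) : Set (OnePoint ℂ) := {p | ∃ U, IsOpen U ∧ p ∈ U ∧ NormalOn f U}

/-- The Julia set of the sequence. -/
def julia (f : ℕ → ℂ[X]) : Set (OnePoint ℂ) := (fatou f)ᶜ

/-- `K` seen as a subset of the Riemann sphere. -/
def spherical (K : Set ℝ) : Set (OnePoint ℂ) := (fun x : ℝ => ((x : ℂ) : OnePoint ℂ)) '' K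

open Pool.Agent.Helper368 Pool.Agent.Helper368.Gap

theorem kernel_eq {D : ℝ} (hD : 0 < D) (x y : ℝ) : logKernel D x y = Pool.Agent.Helper368.ker D x y := by
  unfold logKernel Pool.Agent.Helper368.ker
  split_ifs with h
  · rfl
  · rw [Real.log_div hD.ne' (abs_ne_zero.mpr (sub_ne_zero.mpr h)), Real.dist_eq]

theorem energy_eq (μ : Measure ℝ) : energy KR μ = en (Metric.diam KR + 1) μ μ := by
  have hD : 0 < Metric.diam KR + 1 := by
    have : 0 ≤ Metric.diam KR := Metric.diam_nonneg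
    linarith
  unfold energy en
  simp_rw [kernel_eq hD]

theorem planar_eq (z : ℂ) : z ∈ planar KR ↔ z ∈ KC := by
  rw [mem_KC_iff]
  rfl

theorem KR_regular : IsRegular KR := by
  refine ⟨Gr, Vc, Gr_continuous, ?_, ?_, ?_, Gr_tendsto⟩
  · intro z hz
    exact Gr_zero ((planar_eq z).mp hz)
  · intro z hz
    exact Gr_pos (fun h => hz ((planar_eq z).mpr h))
  · intro z hz
    exact Gr_harmonic (fun h => hz ((planar_eq z).mpr h))

theorem KR_equilibrium : NonPolar KR ∧ RationalGaps KR := by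
  obtain ⟨ν, hν, hs, hfin, hmin, hmass⟩ := summary'
  refine ⟨⟨ν, ⟨hν, hs⟩, by rw [energy_eq]; exact hfin⟩, ⟨ν, ⟨hν, hs⟩, by rw [energy_eq]; exact hfin, ?_⟩, ?_⟩
  · intro μ' hμ'
    rw [energy_eq, energy_eq]
    exact hmin μ' hμ'.1 hμ'.2
  · rintro μ ⟨hμ, -, hμmin⟩ c hc
    have h1 := hμmin ν ⟨hν, hs⟩
    rw [energy_eq, energy_eq] at h1
    exact hmass μ hμ.1 hμ.2 h1 c hc

theorem chord_self (p : OnePoint ℂ) : chord p p = 0 := by
  induction p using OnePoint.rec with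
  | infty => rfl
  | coe z =>
    show 2 * ‖z - z‖ / (Real.sqrt (1 + ‖z‖ ^ 2) * Real.sqrt (1 + ‖z‖ ^ 2)) = 0
    simp

/-- the shifted sequence -/
def shiftSeq (f : ℕ → ℂ[X]) (n : ℕ) : ℂ[X] := f (n + 1)

theorem comps_shift (f : ℕ → ℂ[X]) (n : ℕ) : comps f (n + 1) = (comps (shiftSeq f) n).comp (f 0) := by
  induction n with
  | zero => rfl
  | succ n ih =>
    show (f (n + 2)).comp (comps f (n + 1)) = ((shiftSeq f (n + 1)).comp (comps (shiftSeq f) n)).comp (f 0)
    rw [ih, comp_assoc]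
    rfl

theorem sphereMap_coe (P : ℂ[X]) (z : ℂ) : sphereMap P (z : OnePoint ℂ) = ((P.eval z : ℂ) : OnePoint ℂ) := rfl

theorem sphereMap_comps (f : ℕ → ℂ[X]) (n : ℕ) (z : ℂ) :
    sphereMap (comps f (n + 1)) (z : OnePoint ℂ)
      = sphereMap (comps (shiftSeq f) n) (((f 0).eval z : ℂ) : OnePoint ℂ) := by
  rw [sphereMap_coe, sphereMap_coe, comps_shift, eval_comp]

theorem fatou_of_image (f : ℕ → ℂ[X]) (z : ℂ)
    (h : (((f 0).eval z : ℂ) : OnePoint ℂ) ∈ fatou (shiftSeq f)) : (z : OnePoint ℂ) ∈ fatou f := by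
  obtain ⟨U, hU, hzU, hn⟩ := h
  have hcoe : Continuous (fun z : ℂ => (z : OnePoint ℂ)) := OnePoint.continuous_coe
  have hf0 : Continuous (fun z : ℂ => (f 0).eval z) := (f 0).continuous
  set V0 : Set ℂ := {z | (((f 0).eval z : ℂ) : OnePoint ℂ) ∈ U} with hV0
  have hV0o : IsOpen V0 := hU.preimage (hcoe.comp hf0)
  refine ⟨(fun z : ℂ => (z : OnePoint ℂ)) '' V0, OnePoint.isOpenEmbedding_coe.isOpenMap _ hV0o, ⟨z, hzU, rfl⟩, ?_⟩
  intro k
  by_cases hinf : ∃ᶠ j in atTop, k j = 0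
  · obtain ⟨φ, hφ, hk⟩ := extraction_of_frequently_atTop hinf
    refine ⟨φ, hφ, sphereMap (comps f 0), ?_⟩
    intro C _ _ ε hε
    apply Eventually.of_forall
    intro j p _
    rw [hk j, chord_self]
    exact hε
  · rw [not_frequently] at hinf
    obtain ⟨J, hJ⟩ := eventually_atTop.mp hinf
    obtain ⟨φ, hφ, G, hG⟩ := hn (fun j => k (j + J) - 1)
    refine ⟨fun j => φ j + J, fun a b hab => Nat.add_lt_add_right (hφ hab) J,
      fun p => G (sphereMap (f 0) p), ?_⟩
    intro C hC hCc ε hε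
    have hC0 : IsCompact ((fun z : ℂ => (z : OnePoint ℂ)) ⁻¹' C) := by
      apply OnePoint.isOpenEmbedding_coe.isInducing.isCompact_preimage' hCc
      intro p hp
      obtain ⟨z, _, hz⟩ := hC hp
      exact ⟨z, hz⟩
    have hC1 : IsCompact ((fun z : ℂ => (((f 0).eval z : ℂ) : OnePoint ℂ)) ''
        ((fun z : ℂ => (z : OnePoint ℂ)) ⁻¹' C)) := hC0.image (hcoe.comp hf0)
    have hsub : ((fun z : ℂ => (((f 0).eval z : ℂ) : OnePoint ℂ)) ''
        ((fun z : ℂ => (z : OnePoint ℂ)) ⁻¹' C)) ⊆ U := by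
      rintro _ ⟨z, hz, rfl⟩
      obtain ⟨z', hz', hzz⟩ := hC hz
      rw [← OnePoint.coe_injective hzz]
      exact hz'
    filter_upwards [hG _ hsub hC1 ε hε] with j hj p hp
    obtain ⟨z, _, rfl⟩ := hC hp
    have h1 := hj _ ⟨z, hp, rfl⟩
    have h2 : k (φ j + J) ≠ 0 := hJ _ (Nat.le_add_left J (φ j))
    obtain ⟨m, hm⟩ := Nat.exists_eq_succ_of_ne_zero h2
    simp only at h1 ⊢
    rw [hm] at h1 ⊢
    rw [Nat.succ_eq_add_one, sphereMap_comps, sphereMap_coe (f 0)]
    exact h1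

theorem image_of_fatou (f : ℕ → ℂ[X]) (hf : 2 ≤ (f 0).natDegree) (z : ℂ)
    (h : (z : OnePoint ℂ) ∈ fatou f) : (((f 0).eval z : ℂ) : OnePoint ℂ) ∈ fatou (shiftSeq f) := by
  obtain ⟨U, hU, hzU, hn⟩ := h
  have hcoe : Continuous (fun z : ℂ => (z : OnePoint ℂ)) := OnePoint.continuous_coe
  have hU0 : IsOpen ((fun z : ℂ => (z : OnePoint ℂ)) ⁻¹' U) := hU.preimage hcoe
  obtain ⟨r, hr, hball⟩ := Metric.isOpen_iff.mp hU0 z hzU
  have hcb : Metric.closedBall z (r / 2) ⊆ (fun z : ℂ => (z : OnePoint ℂ)) ⁻¹' U :=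
    (Metric.closedBall_subset_ball (by linarith)).trans hball
  have hopen : IsOpen ((fun z : ℂ => (f 0).eval z) '' Metric.ball z (r / 2)) := by
    have han : AnalyticOnNhd ℂ (fun z : ℂ => (f 0).eval z) univ :=
      fun w _ => (f 0).differentiable.analyticAt w
    rcases han.is_constant_or_isOpen isPreconnected_univ with ⟨w, hw⟩ | hopen
    · exfalso
      have h1 : f 0 = C w := Polynomial.funext (fun z => by rw [eval_C]; exact hw z (mem_univ z))
      rw [h1, natDegree_C] at hf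
      omega
    · exact hopen _ (subset_univ _) Metric.isOpen_ball
  refine ⟨(fun z : ℂ => (z : OnePoint ℂ)) '' ((fun z : ℂ => (f 0).eval z) '' Metric.ball z (r / 2)),
    OnePoint.isOpenEmbedding_coe.isOpenMap _ hopen,
    ⟨_, ⟨z, Metric.mem_ball_self (by linarith), rfl⟩, rfl⟩, ?_⟩
  intro k
  obtain ⟨φ, hφ, G, hG⟩ := hn (fun j => k j + 1)
  have hcomp : IsCompact ((fun z : ℂ => (z : OnePoint ℂ)) '' Metric.closedBall z (r / 2)) :=
    (isCompact_closedBall z (r / 2)).image hcoe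
  have hsub : (fun z : ℂ => (z : OnePoint ℂ)) '' Metric.closedBall z (r / 2) ⊆ U := by
    rintro _ ⟨w, hw, rfl⟩
    exact hcb hw
  have hsec : ∀ p : OnePoint ℂ, ∃ u : ℂ,
      (p ∈ (fun z : ℂ => (z : OnePoint ℂ)) '' ((fun z : ℂ => (f 0).eval z) '' Metric.ball z (r / 2)) →
        u ∈ Metric.closedBall z (r / 2) ∧ (((f 0).eval u : ℂ) : OnePoint ℂ) = p) := by
    intro p
    by_cases hp : p ∈ (fun z : ℂ => (z : OnePoint ℂ)) '' ((fun z : ℂ => (f 0).eval z) '' Metric.ball z (r / 2))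
    · obtain ⟨_, ⟨u, hu, rfl⟩, rfl⟩ := hp
      exact ⟨u, fun _ => ⟨Metric.ball_subset_closedBall hu, rfl⟩⟩
    · exact ⟨0, fun h => absurd h hp⟩
  choose s hs using hsec
  refine ⟨φ, hφ, fun p => G (s p : OnePoint ℂ), ?_⟩
  intro C hC _ ε hε
  filter_upwards [hG _ hsub hcomp ε hε] with j hj p hp
  obtain ⟨h1, h2⟩ := hs p (hC hp)
  have h3 := hj (s p : OnePoint ℂ) ⟨s p, h1, rfl⟩
  rw [sphereMap_comps, h2] at h3
  exact h3

/-- There is a regular non-polar compact set on the line with rational gaps that is not the Julia set of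
any sequence of complex polynomials of degrees at least two. -/
theorem result : ∃ K : Set ℝ, IsCompact K ∧ NonPolar K ∧ IsRegular K ∧ RationalGaps K ∧
    ∀ f : ℕ → ℂ[X], (∀ n, 2 ≤ (f n).natDegree) → julia f ≠ spherical K := by
  refine ⟨KR, KR_compact, KR_equilibrium.1, KR_regular, KR_equilibrium.2, ?_⟩
  intro f hf hJ
  apply not_preimage (f 0) (hf 0) {w : ℂ | (w : OnePoint ℂ) ∈ julia (shiftSeq f)}
  ext z
  have h1 : (z : OnePoint ℂ) ∈ spherical KR ↔ z ∈ (fun x : ℝ => (x : ℂ)) '' KR := by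
    constructor
    · rintro ⟨x, hx, hxz⟩
      exact ⟨x, hx, OnePoint.coe_injective hxz⟩
    · rintro ⟨x, hx, rfl⟩
      exact ⟨x, hx, rfl⟩
  rw [← h1, ← hJ]
  show ¬ ((z : OnePoint ℂ) ∈ fatou f) ↔ ¬ ((((f 0).eval z : ℂ) : OnePoint ℂ) ∈ fatou (shiftSeq f))
  exact not_congr ⟨image_of_fatou f (hf 0) z, fatou_of_image f z⟩

end Pool.Agent.Results.MP_25eb51_an.OneNegative
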