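import Mathlib
import Pool.Agent.Helper368.G10

open MeasureTheory Set Filter Topology Polynomial

namespace Pool.Agent.Results.MP_25eb51_an.TwoNegative

/-- Logarithmic kernel `log (D / |x - y|)`, equal to `⊤` on the diagonal. -/
noncomputable def logKernel (D x y : ℝ) : ENNReal :=
  if x = y then ⊤ else ENNReal.ofReal (Real.log (D / |x - y|))

/-- Logarithmic energy, normalised with `D = diam K + 1`: for a probability measure `μ` on `K` it
equals `log D` plus the double integral of `log (1 / |x - y|)`. -/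
noncomputable def energy (K : Set ℝ) (μ : Measure ℝ) : ENNReal :=
  ∫⁻ x, ∫⁻ y, logKernel (Metric.diam K + 1) x y ∂μ ∂μ

/-- `μ` is a Borel probability measure carried by `K`. -/
def ProbOn (K : Set ℝ) (μ : Measure ℝ) : Prop := IsProbabilityMeasure μ ∧ μ Kᶜ = 0

/-- `K` is not polar: it carries a probability measure of finite logarithmic energy. -/
def NonPolar (K : Set ℝ) : Prop := ∃ μ, ProbOn K μ ∧ energy K μ < ⊤

/-- `μ` is an equilibrium measure of `K`: finite and minimal logarithmic energy. -/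
def IsEquilibrium (K : Set ℝ) (μ : Measure ℝ) : Prop :=
  ProbOn K μ ∧ energy K μ < ⊤ ∧ ∀ μ', ProbOn K μ' → energy K μ ≤ energy K μ'

/-- `K` seen as a subset of the complex plane. -/
def planar (K : Set ℝ) : Set ℂ := (fun x : ℝ => (x : ℂ)) '' K

/-- `K` is regular for the Dirichlet problem: the Green function of the complement of `K` with pole at
infinity (positive and harmonic off `K`, with `g z - log |z|` convergent at infinity) extends by `0` to a
continuous function on the plane. -/
def IsRegular (K : Set ℝ) : Prop :=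
  ∃ (g : ℂ → ℝ) (V : ℝ), Continuous g ∧ (∀ z ∈ planar K, g z = 0) ∧ (∀ z ∉ planar K, 0 < g z) ∧
    InnerProductSpace.HarmonicOnNhd g (planar K)ᶜ ∧
    Tendsto (fun z => g z - Real.log ‖z‖) (Bornology.cobounded ℂ) (𝓝 V)

/-- `K` has an equilibrium measure, and every equilibrium measure gives a rational mass to
`[min K, c]` for every `c` outside `K`. -/
def RationalGaps (K : Set ℝ) : Prop :=
  (∃ μ, IsEquilibrium K μ) ∧ ∀ μ, IsEquilibrium K μ → ∀ c : ℝ, c ∉ K →
    ∃ q : ℚ, μ (Icc (sInf K) c) = ENNReal.ofReal (q : ℝ)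

/-- Admissible polynomials: degree `N ≥ 2`, `N` distinct real zeros, and modulus at least `1` at every
critical point. -/
def Admissible (T : ℝ[X]) : Prop :=
  2 ≤ T.natDegree ∧ T.roots.toFinset.card = T.natDegree ∧
    ∀ y : ℝ, T.derivative.eval y = 0 → 1 ≤ |T.eval y|

/-- The compositions `F₁ = f₁`, `F₂ = f₂ ∘ f₁`, and so on (indices shifted by one). -/
noncomputable def comps (f : ℕ → ℝ[X]) : ℕ → ℝ[X]
  | 0 => f 0
  | n + 1 => (f (n + 1)).comp (comps f n)

/-- Preimage of `[-1, 1]` on the real line. -/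
def realPre (T : ℝ[X]) : Set ℝ := {x | T.eval x ∈ Icc (-1 : ℝ) 1}

/-- Preimage of `[-1, 1]` in the complex plane. -/
def complexPre (T : ℝ[X]) : Set ℂ := {z | ∃ t ∈ Icc (-1 : ℝ) 1, aeval z T = (t : ℂ)}

open Pool.Agent.Helper368 Pool.Agent.Helper368.Gap

theorem kernel_eq {D : ℝ} (hD : 0 < D) (x y : ℝ) : logKernel D x y = Pool.Agent.Helper368.ker D x y := by
  unfold logKernel Pool.Agent.Helper368.ker
  split_ifs with h
  · rfl
  · rw [Real.log_div hD.ne' (abs_ne_zero.mpr (sub_ne_zero.mpr h)), Real.dist_eq]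

theorem energy_eq (μ : Measure ℝ) : energy KR μ = en (Metric.diam KR + 1) μ μ := by
  have hD : 0 < Metric.diam KR + 1 := by
    have : 0 ≤ Metric.diam KR := Metric.diam_nonneg
    linarith
  unfold energy en
  simp_rw [kernel_eq hD]

theorem planar_eq (z : ℂ) : z ∈ planar KR ↔ z ∈ KC := by
  rw [mem_KC_iff]
  rfl

theorem KR_regular : IsRegular KR := by
  refine ⟨Gr, Vc, Gr_continuous, ?_, ?_, ?_, Gr_tendsto⟩
  · intro z hz
    exact Gr_zero ((planar_eq z).mp hz)
  · intro z hz
    exact Gr_pos (fun h => hz ((planar_eq z).mpr h))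
  · intro z hz
    exact Gr_harmonic (fun h => hz ((planar_eq z).mpr h))

theorem KR_equilibrium : NonPolar KR ∧ RationalGaps KR := by
  obtain ⟨ν, hν, hs, hfin, hmin, hmass⟩ := summary'
  refine ⟨⟨ν, ⟨hν, hs⟩, by rw [energy_eq]; exact hfin⟩, ⟨ν, ⟨hν, hs⟩, by rw [energy_eq]; exact hfin, ?_⟩, ?_⟩
  · intro μ' hμ'
    rw [energy_eq, energy_eq]
    exact hmin μ' hμ'.1 hμ'.2
  · rintro μ ⟨hμ, -, hμmin⟩ c hc
    have h1 := hμmin ν ⟨hν, hs⟩
    rw [energy_eq, energy_eq] at h1
    exact hmass μ hμ.1 hμ.2 h1 c hc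

theorem comps_eval (f : ℕ → ℝ[X]) {x y : ℝ} (h : (f 0).eval x = (f 0).eval y) (n : ℕ) :
    (comps f n).eval x = (comps f n).eval y := by
  induction n with
  | zero => exact h
  | succ n ih => simp only [comps, eval_comp, ih]

theorem comps_aeval (f : ℕ → ℝ[X]) {x y : ℂ} (h : aeval x (f 0) = aeval y (f 0)) (n : ℕ) :
    aeval x (comps f n) = aeval y (comps f n) := by
  induction n with
  | zero => exact h
  | succ n ih => simp only [comps, aeval_comp, ih]

theorem map_eval (T : ℝ[X]) (z : ℂ) : (T.map Complex.ofRealHom).eval z = aeval z T := by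
  rw [eval_map]; rfl

theorem aeval_real (T : ℝ[X]) (x : ℝ) : aeval (x : ℂ) T = ((T.eval x : ℝ) : ℂ) := by
  rw [← map_eval, eval_map, show ((x : ℝ) : ℂ) = Complex.ofRealHom x from rfl, Polynomial.eval₂_at_apply]
  rfl

theorem natDegree_map_real (T : ℝ[X]) : (T.map Complex.ofRealHom).natDegree = T.natDegree :=
  natDegree_map_eq_of_injective Complex.ofReal_injective T

/-- There is a regular non-polar compact set on the line with rational gaps which is not the
intersection of a decreasing sequence of sets `F_n⁻¹([-1,1])` for any sequence of admissible polynomials,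
neither with real nor with complex preimages. -/
theorem result : ∃ K : Set ℝ, IsCompact K ∧ NonPolar K ∧ IsRegular K ∧ RationalGaps K ∧
    (¬ ∃ f : ℕ → ℝ[X], (∀ n, Admissible (f n)) ∧ Antitone (fun n => realPre (comps f n)) ∧
      K = ⋂ n, realPre (comps f n)) ∧
    (¬ ∃ f : ℕ → ℝ[X], (∀ n, Admissible (f n)) ∧ Antitone (fun n => complexPre (comps f n)) ∧
      planar K = ⋂ n, complexPre (comps f n)) := by
  refine ⟨KR, KR_compact, KR_equilibrium.1, KR_regular, KR_equilibrium.2, ?_, ?_⟩
  · rintro ⟨f, hf, -, hK⟩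
    apply rigid ((f 0).map Complex.ofRealHom) (by rw [natDegree_map_real]; exact (hf 0).1)
    intro x hx z hz
    rw [map_eval, map_eval, aeval_real] at hz
    have hx0 : x ∈ realPre (comps f 0) := by
      rw [hK] at hx
      exact mem_iInter.mp hx 0
    have ht : |(f 0).eval x| ≤ 1 := abs_le.mpr hx0
    have him := adm_real (hf 0).1 (hf 0).2.1 (hf 0).2.2 ht hz
    obtain ⟨y, rfl⟩ : ∃ y : ℝ, (y : ℂ) = z := ⟨z.re, Complex.ext rfl (by simp [him])⟩
    rw [aeval_real] at hz
    have hxy : (f 0).eval y = (f 0).eval x := Complex.ofReal_injective hz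
    refine ⟨y, ?_, rfl⟩
    rw [hK]
    apply mem_iInter.mpr
    intro n
    show (comps f n).eval y ∈ Icc (-1 : ℝ) 1
    rw [comps_eval f hxy n]
    rw [hK] at hx
    exact mem_iInter.mp hx n
  · rintro ⟨f, hf, -, hK⟩
    apply rigid ((f 0).map Complex.ofRealHom) (by rw [natDegree_map_real]; exact (hf 0).1)
    intro x hx z hz
    rw [map_eval, map_eval] at hz
    have hxK : (x : ℂ) ∈ planar KR := ⟨x, hx, rfl⟩
    have hzK : z ∈ planar KR := by
      rw [hK] at hxK ⊢
      apply mem_iInter.mpr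
      intro n
      obtain ⟨t, ht, hxt⟩ := mem_iInter.mp hxK n
      exact ⟨t, ht, by rw [comps_aeval f hz n, hxt]⟩
    exact hzK

end Pool.Agent.Results.MP_25eb51_an.TwoNegative
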